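import Pool.Agent.Wsn.Cyc
import Pool.Agent.Wil.Rel

/-! The radical of the group algebra of the symmetric group lies in the ideal `UU`, and the dimension of `UU`. -/

set_option autoImplicit false

namespace Pool.Agent.Wsn

open MonoidAlgebra Pool.Agent.Wil

variable {k : Type} [Field k] {n : ℕ}

-- BEGIN theta_long
/-- PROOF. A fixed point `a • P` gives `a⁻¹ * g * a ∈ P` (`QuotientGroup.eq`, `MulAction.Quotient.smul_mk`), so the order of `g` is a power of `p` (`IsPGroup`, `IsPGroup.iff_orderOf`, conjugation preserves the order). `g ≠ 1` moves a point `x`; the cardinality of `orb g x` is the order of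
`g.cycleOf x`, a divisor of the order of `g`, not `1` (`Equiv.Perm.orderOf_cycleOf_dvd_orderOf` or `Equiv.Perm.IsCycle.orderOf`, `Equiv.Perm.card_support_cycleOf..`), so it is a power `p ^ b` with `1 ≤ b`. -/
theorem theta_long (p : ℕ) [Fact p.Prime] (P : Sylow p (Equiv.Perm (Fin n))) (g : Equiv.Perm (Fin n)) (hg : g ≠ 1)
    (h : fixc (MulAction.toPermHom (Equiv.Perm (Fin n)) (Equiv.Perm (Fin n) ⧸ (P : Subgroup (Equiv.Perm (Fin n))))) g ≠ 0) :
    ∃ x, p ≤ (orb g x).card := by
  classical
  have hp : p.Prime := Fact.out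
  unfold fixc at h
  obtain ⟨⟨q, hq⟩⟩ := (Nat.card_ne_zero.1 h).1
  obtain ⟨a, rfl⟩ := QuotientGroup.mk_surjective q
  have h1 : (QuotientGroup.mk (g * a) : Equiv.Perm (Fin n) ⧸ (P : Subgroup (Equiv.Perm (Fin n)))) =
      QuotientGroup.mk a := hq
  rw [QuotientGroup.eq] at h1
  obtain ⟨m, hm⟩ := P.isPGroup' ⟨_, h1⟩
  have h2 : ((g * a)⁻¹ * a) ^ p ^ m = 1 := by
    have := congrArg Subtype.val hm
    simpa using this
  have h3 : g ^ p ^ m = 1 := by
    have e1 : (g * a)⁻¹ * a = a⁻¹ * g⁻¹ * a⁻¹⁻¹ := by group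
    rw [e1, conj_pow] at h2
    have h4 : g⁻¹ ^ p ^ m = 1 := by
      have := congrArg (fun z => a * z * a⁻¹) h2
      simpa [mul_assoc] using this
    rw [inv_pow, inv_eq_one] at h4
    exact h4
  obtain ⟨x, hx⟩ : ∃ x, g x ≠ x := by
    by_contra hcon
    push Not at hcon
    exact hg (Equiv.ext hcon)
  refine ⟨x, ?_⟩
  have h5 : orderOf (g.cycleOf x) ∣ p ^ m :=
    (Equiv.Perm.orderOf_cycleOf_dvd_orderOf g x).trans (orderOf_dvd_of_pow_eq_one h3)
  obtain ⟨b, -, hb⟩ := (Nat.dvd_prime_pow hp).1 h5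
  have hcyc := Equiv.Perm.isCycle_cycleOf g hx
  have h6 : orb g x = (g.cycleOf x).support := by
    ext y
    rw [mem_orb, Equiv.Perm.mem_support_cycleOf_iff' hx]
  rw [h6, ← hcyc.orderOf, hb]
  have hb0 : b ≠ 0 := by
    rintro rfl
    rw [pow_zero, orderOf_eq_one_iff] at hb
    exact hcyc.ne_one hb
  exact Nat.le_self_pow hb0 p
-- END theta_long

-- BEGIN jac_le
private theorem jac_le_orb (x : Fin n) : (orb (1 : Equiv.Perm (Fin n)) x).card = 1 := by
  rw [Finset.card_eq_one]
  refine ⟨x, ?_⟩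
  ext y
  rw [mem_orb, Finset.mem_singleton, Equiv.Perm.sameCycle_one]
  exact eq_comm

private theorem jac_le_inv {G Ω : Type} [Group G] (ρ : G →* Equiv.Perm Ω) (g : G) :
    fixc ρ g⁻¹ = fixc ρ g := by
  unfold fixc
  refine Nat.card_congr (Equiv.subtypeEquivRight fun w => ?_)
  rw [map_inv, Equiv.Perm.inv_eq_iff_eq]
  exact eq_comm

private theorem jac_le_conj {G Ω : Type} [Group G] (ρ : G →* Equiv.Perm Ω) (g h : G)
    (hc : IsConj g h) : fixc ρ g = fixc ρ h := by
  obtain ⟨c, hc⟩ := isConj_iff.1 hc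
  rw [← hc, fixc_conj, ← mul_assoc, inv_mul_cancel, one_mul]

/-- PROOF. `P` a Sylow `p`-subgroup, `ρ = MulAction.toPermHom G (G ⧸ P)`, `χ g = (fixc ρ g : ℤ)`, `m = P.index`, not divisible by `p` (`Sylow.not_dvd_index`), `b = ∑ g, single g (χ g⁻¹ : k)`. `b * x = 0` by `bj_zero` (Wil/Mod.lean), the hypothesis `hnil` by `perm_rep` (Wil/Char.lean; trace of a nilpotent matrix: as in the proof of `virt_nil`,
or `virt_nil` itself for the one-term combination). `fixc ρ g⁻¹ = fixc ρ g`, `fixc ρ 1 = m`. `b - single 1 m = ∑ g, single g (if ∃ x, p ≤ (orb g x).card then χ g else 0)`: for `g = 1` the cycles have one point and `2 ≤ p`, for `g ≠ 1` `theta_long`. So `b - single 1 m ∈ UU k n l` by `long_mem` (`fixc_conj`), and `m • x = b * x - (b - single 1 m) * x ∈ UU` by `UU_mul`,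
`(m : k) ≠ 0` (`CharP.cast_eq_zero_iff`). -/
theorem jac_le (p : ℕ) [Fact p.Prime] [CharP k p] (l : ℕ) (hl : 2 * l ≤ p + 1)
    (x : MonoidAlgebra k (Equiv.Perm (Fin n))) (hx : x ∈ Ring.jacobson (MonoidAlgebra k (Equiv.Perm (Fin n)))) :
    x ∈ UU k n l := by
  classical
  have hp : p.Prime := Fact.out
  obtain ⟨P⟩ : Nonempty (Sylow p (Equiv.Perm (Fin n))) := inferInstance
  obtain ⟨ρ, hρ⟩ : ∃ ρ : Equiv.Perm (Fin n) →*
      Equiv.Perm (Equiv.Perm (Fin n) ⧸ (P : Subgroup (Equiv.Perm (Fin n)))),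
      ρ = MulAction.toPermHom (Equiv.Perm (Fin n))
        (Equiv.Perm (Fin n) ⧸ (P : Subgroup (Equiv.Perm (Fin n)))) := ⟨_, rfl⟩
  have hv : Virt (fun g : Equiv.Perm (Fin n) => (fixc ρ g : ℤ)) :=
    ⟨Unit, inferInstance, fun _ => Equiv.Perm (Fin n) ⧸ (P : Subgroup (Equiv.Perm (Fin n))),
      fun _ => inferInstance, fun _ => ρ, fun _ => 1, fun g => by simp⟩
  have hb := bj_zero (k := k) (fun g : Equiv.Perm (Fin n) => (fixc ρ g : ℤ))
    (fun a ha => virt_nil _ hv a ha) x hx
  have h1 : fixc ρ 1 = (P : Subgroup (Equiv.Perm (Fin n))).index := by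
    unfold fixc
    rw [Subgroup.index]
    refine Nat.card_congr (Equiv.subtypeUnivEquiv fun w => ?_)
    rw [map_one, Equiv.Perm.one_apply]
  have hm : (((P : Subgroup (Equiv.Perm (Fin n))).index : ℕ) : k) ≠ 0 := by
    rw [Ne, CharP.cast_eq_zero_iff k p]
    exact P.not_dvd_index
  have hsum : (∑ g : Equiv.Perm (Fin n),
      single g (((fixc ρ g⁻¹ : ℤ)) : k)) =
      (∑ g : Equiv.Perm (Fin n), single g (if g = 1 then
        (((P : Subgroup (Equiv.Perm (Fin n))).index : ℕ) : k) else 0)) +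
      ∑ g : Equiv.Perm (Fin n), single g (if ∃ x, p ≤ (orb g x).card then
        ((fixc ρ g : ℕ) : k) else 0) := by
    rw [← Finset.sum_add_distrib]
    refine Finset.sum_congr rfl fun g _ => ?_
    rw [← single_add]
    congr 1
    rw [jac_le_inv]
    by_cases hg : g = 1
    · subst hg
      have h2 : ¬ ∃ x, p ≤ (orb (1 : Equiv.Perm (Fin n)) x).card := by
        rintro ⟨x, hx⟩
        rw [jac_le_orb] at hx
        have := hp.two_le
        omega
      rw [if_pos rfl, if_neg h2, add_zero, h1]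
      push_cast
      rfl
    · rw [if_neg hg, zero_add]
      by_cases h3 : ∃ x, p ≤ (orb g x).card
      · rw [if_pos h3]
        push_cast
        rfl
      · rw [if_neg h3]
        have h4 : fixc ρ g = 0 := by
          by_contra hcon
          rw [hρ] at hcon
          exact h3 (theta_long p P g hg hcon)
        rw [h4]
        simp
  have hone : (∑ g : Equiv.Perm (Fin n), single g (if g = 1 then
        (((P : Subgroup (Equiv.Perm (Fin n))).index : ℕ) : k) else 0)) =
      single 1 (((P : Subgroup (Equiv.Perm (Fin n))).index : ℕ) : k) := by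
    rw [Finset.sum_eq_single 1]
    · rw [if_pos rfl]
    · intro g _ hg
      rw [if_neg hg, single_zero]
    · intro h
      exact absurd (Finset.mem_univ _) h
  have hU := long_mem (k := k) (n := n) l p hl hp.one_le (fun g => ((fixc ρ g : ℕ) : k))
    (fun g h hc => by
      show ((fixc ρ g : ℕ) : k) = ((fixc ρ h : ℕ) : k)
      rw [jac_le_conj ρ g h hc])
  have hUx := UU_mul hU x
  rw [hsum, hone, add_mul] at hb
  have h5 : single (1 : Equiv.Perm (Fin n)) (((P : Subgroup (Equiv.Perm (Fin n))).index : ℕ) : k) * x =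
      (((P : Subgroup (Equiv.Perm (Fin n))).index : ℕ) : k) • x := by
    rw [← smul_one_mul, MonoidAlgebra.one_def, MonoidAlgebra.smul_single, smul_eq_mul, mul_one]
  rw [h5] at hb
  have h6 := eq_neg_of_add_eq_zero_left hb
  have h7 : (((P : Subgroup (Equiv.Perm (Fin n))).index : ℕ) : k) • x ∈ UU k n l := by
    rw [h6]
    exact Submodule.neg_mem _ hUx
  exact (Submodule.smul_mem_iff _ hm).1 h7
-- END jac_le

-- BEGIN dim_sm
private theorem dim_sm_mul (χ : Equiv.Perm (Fin n) →* k) (A : Finset (Fin n)) (s : Equiv.Perm (Fin n))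
    (hs : Fx A s) : sm χ A * single s (1 : k) = χ s⁻¹ • sm χ A := by
  have hs' : Fx A s⁻¹ := fun x hx => by
    rw [Equiv.Perm.inv_eq_iff_eq]; exact (hs x hx).symm
  have hiff : ∀ g : Equiv.Perm (Fin n), Fx A (g * s⁻¹) ↔ Fx A g := by
    intro g
    constructor
    · intro h x hx
      have := h x hx
      rwa [Equiv.Perm.mul_apply, hs' x hx] at this
    · intro h x hx
      rw [Equiv.Perm.mul_apply, hs' x hx, h x hx]
  unfold sm
  rw [Finset.sum_mul, Finset.smul_sum]
  have h1 : ∀ g : Equiv.Perm (Fin n), single g (if Fx A g then χ g else 0) * single s (1 : k) =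
      (fun g => single g (if Fx A (g * s⁻¹) then χ (g * s⁻¹) else 0)) ((Equiv.mulRight s) g) := by
    intro g
    simp only [Equiv.coe_mulRight, mul_inv_cancel_right, MonoidAlgebra.single_mul_single, mul_one]
  rw [Finset.sum_congr rfl fun g _ => h1 g, Equiv.sum_comp (Equiv.mulRight s)
    (fun g => single g (if Fx A (g * s⁻¹) then χ (g * s⁻¹) else 0))]
  refine Finset.sum_congr rfl fun g _ => ?_
  rw [MonoidAlgebra.smul_single]
  congr 1
  by_cases h : Fx A g
  · rw [if_pos ((hiff g).2 h), if_pos h, map_mul, smul_eq_mul, mul_comm]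
  · rw [if_neg (fun h' => h ((hiff g).1 h')), if_neg h, smul_zero]

private def dim_sm_F (A : Finset (Fin n)) : Subgroup (Equiv.Perm (Fin n)) where
  carrier := {g | Fx A g}
  mul_mem' := fun {a b} ha hb x hx => by
    show (a * b) x = x
    rw [Equiv.Perm.mul_apply, hb x hx, ha x hx]
  one_mem' := fun x _ => rfl
  inv_mem' := fun {a} ha x hx => by
    show a⁻¹ x = x
    rw [Equiv.Perm.inv_eq_iff_eq]; exact (ha x hx).symm

private theorem dim_sm_card (A : Finset (Fin n)) : Nat.card (dim_sm_F A) = A.card.factorial := by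
  classical
  have e : Equiv.Perm {x // x ∈ A} ≃ dim_sm_F A := Equiv.Perm.subtypeEquivSubtypePerm (fun x => x ∈ A)
  rw [← Nat.card_congr e, Nat.card_perm, Nat.card_eq_fintype_card, Fintype.card_coe]

/-- PROOF. Let `F` be the subgroup of the `s` with `Fx A s`; `Nat.card F = A.card.factorial` (`F ≃ Equiv.Perm A`: `Equiv.Perm.subtypeEquivSubtypePerm` or `Equiv.Perm.ofSubtype`). For `s ∈ F`: `sm χ A * single s 1 = χ s⁻¹ • sm χ A` (`χ s * χ s⁻¹ = 1`), so `sm χ A * single (s * g) 1 = χ s⁻¹ • (sm χ A * single g 1)`: the range is spanned by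
the `sm χ A * single g 1`, `g` in a set of representatives of the right cosets of `F` (as many as left cosets: `F.index`), `finrank_span_le_card` or `finrank_le_of_span` (Wil/Basic.lean), `Subgroup.index_mul_card`. -/
theorem dim_sm (χ : Equiv.Perm (Fin n) →* k) (A : Finset (Fin n)) :
    Module.finrank k (LinearMap.range (LinearMap.mulLeft k (sm χ A))) * A.card.factorial ≤ n.factorial := by
  classical
  set F := dim_sm_F A with hF
  let b : (Equiv.Perm (Fin n) ⧸ F) → MonoidAlgebra k (Equiv.Perm (Fin n)) :=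
    fun q => sm χ A * single (Quotient.out q)⁻¹ (1 : k)
  have : Fintype (Equiv.Perm (Fin n) ⧸ F) := Fintype.ofFinite _
  have hsp : LinearMap.range (LinearMap.mulLeft k (sm χ A)) ≤ Submodule.span k (Set.range b) := by
    rintro _ ⟨x, rfl⟩
    rw [LinearMap.mulLeft_apply]
    induction x using MonoidAlgebra.induction_linear with
    | zero => rw [mul_zero]; exact Submodule.zero_mem _
    | add f g hf hg => rw [mul_add]; exact Submodule.add_mem _ hf hg
    | single g r =>
      have h1 : ((Quotient.out (QuotientGroup.mk g⁻¹ : Equiv.Perm (Fin n) ⧸ F) : Equiv.Perm (Fin n)) :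
          Equiv.Perm (Fin n) ⧸ F) = QuotientGroup.mk g⁻¹ := QuotientGroup.out_eq' _
      have h2 := QuotientGroup.eq.1 h1.symm
      rw [inv_inv] at h2
      have h3 : g = g * Quotient.out (QuotientGroup.mk g⁻¹ : Equiv.Perm (Fin n) ⧸ F) *
          (Quotient.out (QuotientGroup.mk g⁻¹ : Equiv.Perm (Fin n) ⧸ F))⁻¹ := by group
      have h4 : sm χ A * single g r =
          (r * χ (g * Quotient.out (QuotientGroup.mk g⁻¹ : Equiv.Perm (Fin n) ⧸ F))⁻¹) •
            b (QuotientGroup.mk g⁻¹) := by
        have h5 : (single g r : MonoidAlgebra k (Equiv.Perm (Fin n))) =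
            r • (single (g * Quotient.out (QuotientGroup.mk g⁻¹ : Equiv.Perm (Fin n) ⧸ F)) (1 : k) *
              single (Quotient.out (QuotientGroup.mk g⁻¹ : Equiv.Perm (Fin n) ⧸ F))⁻¹ (1 : k)) := by
          rw [MonoidAlgebra.single_mul_single, ← h3, mul_one, MonoidAlgebra.smul_single, smul_eq_mul,
            mul_one]
        rw [h5, mul_smul_comm, ← mul_assoc, dim_sm_mul χ A _ h2, smul_mul_assoc, smul_smul]
      rw [h4]
      exact Submodule.smul_mem _ _ (Submodule.subset_span ⟨_, rfl⟩)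
  have h1 : Module.finrank k (LinearMap.range (LinearMap.mulLeft k (sm χ A))) ≤ F.index := by
    refine (Submodule.finrank_mono hsp).trans ((finrank_range_le_card b).trans ?_)
    rw [← Nat.card_eq_fintype_card]
    exact le_of_eq rfl
  have h2 := F.index_mul_card
  rw [hF, dim_sm_card, ← hF, Nat.card_perm, Nat.card_eq_fintype_card, Fintype.card_fin] at h2
  rw [← h2]
  exact Nat.mul_le_mul_right _ h1
-- END dim_sm

-- BEGIN dim_UU
private theorem dim_UU_sup {ι M : Type} [AddCommGroup M] [Module k M] [Module.Finite k M]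
    (s : Finset ι) (W : ι → Submodule k M) :
    Module.finrank k (s.sup W : Submodule k M) ≤ ∑ i ∈ s, Module.finrank k (W i) := by
  classical
  induction s using Finset.induction_on with
  | empty => simp
  | insert a s ha ih =>
    rw [Finset.sup_insert, Finset.sum_insert ha]
    exact (Submodule.finrank_add_le_finrank_add_finrank _ _).trans (Nat.add_le_add_left ih _)

/-- PROOF. `UU k n l = ⨆` over `A ∈ Finset.powersetCard l Finset.univ` and `χ ∈ {1, sgn}` of the ranges of `LinearMap.mulLeft k (sm χ A)`; the dimension of a finite sum of subspaces is at most the sum of the dimensions (induction with `Submodule.finrank_add_le_finrank_add_finrank`), `dim_sm`, `Finset.card_powersetCard`. -/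
theorem dim_UU (l : ℕ) : Module.finrank k (UU k n l) * l.factorial ≤ 2 * n.choose l * n.factorial := by
  have hfin : Module.Finite k (MonoidAlgebra k (Equiv.Perm (Fin n))) :=
    Module.Finite.of_basis (MonoidAlgebra.basis (Equiv.Perm (Fin n)) k)
  let ch : Bool → (Equiv.Perm (Fin n) →* k) := fun b => if b then 1 else sgn k n
  let W : Bool × Finset (Fin n) → Submodule k (MonoidAlgebra k (Equiv.Perm (Fin n))) := fun i =>
    LinearMap.range (LinearMap.mulLeft k (sm (ch i.1) i.2))
  let s : Finset (Bool × Finset (Fin n)) :=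
    Finset.univ ×ˢ Finset.powersetCard l (Finset.univ : Finset (Fin n))
  have hle : UU k n l ≤ s.sup W := by
    refine Submodule.span_le.2 ?_
    rintro u ⟨χ, A, x, hχ, hA, rfl⟩
    have h1 : ∃ b : Bool, ch b = χ := by
      rcases hχ with h | h
      · exact ⟨true, h.symm⟩
      · exact ⟨false, h.symm⟩
    obtain ⟨b, hb⟩ := h1
    have h2 : (b, A) ∈ s := by
      rw [Finset.mem_product, Finset.mem_powersetCard]
      exact ⟨Finset.mem_univ _, Finset.subset_univ _, hA⟩
    have h3 : W (b, A) ≤ s.sup W := Finset.le_sup (f := W) h2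
    refine h3 ?_
    refine ⟨x, ?_⟩
    show sm (ch b) A * x = sm χ A * x
    rw [hb]
  have h4 : Module.finrank k (UU k n l) ≤ ∑ i ∈ s, Module.finrank k (W i) :=
    (Submodule.finrank_mono hle).trans (dim_UU_sup s W)
  have h5 : (∑ i ∈ s, Module.finrank k (W i)) * l.factorial ≤ ∑ _i ∈ s, n.factorial := by
    rw [Finset.sum_mul]
    refine Finset.sum_le_sum fun i hi => ?_
    have h6 : i.2.card = l := by
      rw [Finset.mem_product, Finset.mem_powersetCard] at hi
      exact hi.2.2
    have h7 := dim_sm (ch i.1) i.2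
    rw [h6] at h7
    exact h7
  have h8 : s.card = 2 * n.choose l := by
    rw [Finset.card_product, Finset.card_powersetCard, Finset.card_univ, Finset.card_univ,
      Fintype.card_bool, Fintype.card_fin]
  rw [Finset.sum_const, smul_eq_mul, h8] at h5
  exact (Nat.mul_le_mul_right _ h4).trans h5
-- END dim_UU

-- BEGIN main_E
/-- PROOF. `jac_le`: `(Ring.jacobson ..).restrictScalars k ≤ UU k n l`, so its dimension is at most that of `UU`; `n.factorial = finrank k (k[S_n]) = ssDim + finrank of the radical` (`Submodule.finrank_quotient_add_finrank`, `MonoidAlgebra.basis`, `Fintype.card_perm`); multiply by `l.factorial`, `dim_UU`. -/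
theorem main_E (p : ℕ) [Fact p.Prime] [CharP k p] (l : ℕ) (hl : 2 * l ≤ p + 1) :
    n.factorial * l.factorial ≤ ssDim k (Equiv.Perm (Fin n)) * l.factorial + 2 * n.choose l * n.factorial := by
  have h1 : (Ring.jacobson (MonoidAlgebra k (Equiv.Perm (Fin n)))).restrictScalars k ≤ UU k n l :=
    fun x hx => jac_le p l hl x hx
  have hfin : Module.Finite k (MonoidAlgebra k (Equiv.Perm (Fin n))) :=
    Module.Finite.of_basis (MonoidAlgebra.basis (Equiv.Perm (Fin n)) k)
  have h2 : Module.finrank k (MonoidAlgebra k (Equiv.Perm (Fin n))) = n.factorial := by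
    rw [Module.finrank_eq_card_basis (MonoidAlgebra.basis (Equiv.Perm (Fin n)) k), Fintype.card_perm, Fintype.card_fin]
  have h3 := Submodule.finrank_quotient_add_finrank
    ((Ring.jacobson (MonoidAlgebra k (Equiv.Perm (Fin n)))).restrictScalars k)
  have h4 := Submodule.finrank_mono h1
  have h5 := dim_UU (k := k) (n := n) l
  have h6 : n.factorial ≤ ssDim k (Equiv.Perm (Fin n)) + Module.finrank k (UU k n l) := by
    rw [← h2, ← h3]
    exact Nat.add_le_add_left h4 _
  calc n.factorial * l.factorial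
      ≤ (ssDim k (Equiv.Perm (Fin n)) + Module.finrank k (UU k n l)) * l.factorial := Nat.mul_le_mul_right _ h6
    _ = ssDim k (Equiv.Perm (Fin n)) * l.factorial + Module.finrank k (UU k n l) * l.factorial := add_mul _ _ _
    _ ≤ ssDim k (Equiv.Perm (Fin n)) * l.factorial + 2 * n.choose l * n.factorial := Nat.add_le_add_left h5 _
-- END main_E

-- BEGIN num
/-- PROOF. `l` is at least `15`. `(n.choose l : ℝ) ≤ n ^ l / l!` (`Nat.choose_le_pow_div`), `√(2 π l) * (l / e) ^ l ≤ l!` (`Stirling.le_factorial_stirling`; check the name), so `n.choose l / l! ≤ n ^ l / (l!) ^ 2 ≤ (e ^ 2 * n / l ^ 2) ^ l / (2 π l) ≤ 1 / (2 π l)`, because `30 n ≤ 4 l ^ 2` and `e ^ 2 < 7.4 < 7.5`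
(`Real.exp_one_lt_d9`). So `2 * n.choose l ≤ l! / (3 * 15) `, and `p * (l! / 45) ≤ (p - 1) * l!`. -/
theorem num (p n l : ℕ) (hp : 29 ≤ p) (hn : 30 * n ≤ (2 * l) ^ 2) (hl : p ≤ 2 * l) :
    p * (2 * n.choose l) ≤ (p - 1) * l.factorial := by
  have hl16 : 15 ≤ l := by omega
  have hL : (15 : ℝ) ≤ l := by exact_mod_cast hl16
  have hL0 : (0 : ℝ) < l := by linarith
  have hf0 : (0 : ℝ) < l.factorial := by exact_mod_cast l.factorial_pos
  have hn' : (n : ℝ) ≤ 2 / 15 * (l : ℝ) ^ 2 := by
    have h1 : 30 * n ≤ 4 * l ^ 2 := by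
      rw [Nat.mul_pow] at hn
      exact hn
    have h2 : (30 : ℝ) * n ≤ 4 * (l : ℝ) ^ 2 := by exact_mod_cast h1
    linarith
  have he0 := Real.exp_pos 1
  have hs := Stirling.le_factorial_stirling l
  have hsq : 2 * Real.pi * l * (((l : ℝ) / Real.exp 1) ^ l) ^ 2 ≤ (l.factorial : ℝ) ^ 2 := by
    have h0 : 0 ≤ Real.sqrt (2 * Real.pi * l) * ((l : ℝ) / Real.exp 1) ^ l := by positivity
    calc 2 * Real.pi * l * (((l : ℝ) / Real.exp 1) ^ l) ^ 2 =
        (Real.sqrt (2 * Real.pi * l) * ((l : ℝ) / Real.exp 1) ^ l) ^ 2 := by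
          rw [mul_pow, Real.sq_sqrt (by positivity)]
      _ ≤ _ := pow_le_pow_left₀ h0 hs 2
  have he : 2 / 15 * Real.exp 1 ^ 2 ≤ 1 := by
    have h1 := Real.exp_one_lt_d9
    nlinarith
  have hnl : (n : ℝ) ^ l ≤ (((l : ℝ) / Real.exp 1) ^ l) ^ 2 := by
    rw [← pow_mul, mul_comm l 2, pow_mul]
    refine pow_le_pow_left₀ (Nat.cast_nonneg n) ?_ l
    rw [div_pow, le_div_iff₀ (by positivity)]
    calc (n : ℝ) * Real.exp 1 ^ 2 ≤ 2 / 15 * (l : ℝ) ^ 2 * Real.exp 1 ^ 2 :=
          mul_le_mul_of_nonneg_right hn' (by positivity)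
      _ = 2 / 15 * Real.exp 1 ^ 2 * (l : ℝ) ^ 2 := by ring
      _ ≤ 1 * (l : ℝ) ^ 2 := mul_le_mul_of_nonneg_right he (by positivity)
      _ = (l : ℝ) ^ 2 := one_mul _
  have hpi : (90 : ℝ) ≤ 2 * Real.pi * l := by
    have h1 := Real.pi_gt_three
    nlinarith
  have h100 : 90 * (n : ℝ) ^ l ≤ (l.factorial : ℝ) ^ 2 :=
    (mul_le_mul hpi hnl (by positivity) (by positivity)).trans hsq
  have hc : (n.choose l : ℝ) * l.factorial ≤ (n : ℝ) ^ l := by
    have h1 := Nat.choose_le_pow_div (α := ℝ) l n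
    rwa [le_div_iff₀ hf0] at h1
  have h96 : 90 * (n.choose l : ℝ) ≤ l.factorial := by
    have h1 : 90 * (n.choose l : ℝ) * l.factorial ≤ l.factorial * l.factorial := by
      rw [← sq, mul_assoc]
      exact (mul_le_mul_of_nonneg_left hc (by norm_num)).trans h100
    exact le_of_mul_le_mul_right h1 hf0
  have h96' : 90 * n.choose l ≤ l.factorial := by exact_mod_cast h96
  calc p * (2 * n.choose l) = 2 * p * n.choose l := by ring
    _ ≤ (p - 1) * 90 * n.choose l := Nat.mul_le_mul_right _ (by omega)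
    _ = (p - 1) * (90 * n.choose l) := by ring
    _ ≤ (p - 1) * l.factorial := Nat.mul_le_mul_left _ h96'
-- END num

-- BEGIN will_E
/-- PROOF. `n < p`: `p` does not divide `n!`, `ssDim_ge_card` (Wil/Rel.lean) for the whole group, `pPrimePart_le`. `p ≤ n`: then `29 ≤ p` (`30 p ≤ 30 n ≤ (p + 1) ^ 2`, `28` is not prime); `l = (p + 1) / 2`, `2 l = p + 1`. `main_E` and `num` give `n! ≤ p * ssDim`, and `p ∣ n!` gives `p * pPrimePart p n! ≤ n!` (`n! = pPrimePart p n! * p ^ v` with `1 ≤ v`). -/
theorem will_E (p : ℕ) [Fact p.Prime] [CharP k p] (hp : p ≠ 2) (hn : 30 * n ≤ (p + 1) ^ 2) :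
    pPrimePart p n.factorial ≤ ssDim k (Equiv.Perm (Fin n)) := by
  have hpp : p.Prime := Fact.out
  rcases Nat.lt_or_ge n p with h | h
  · have h1 : ¬ p ∣ Nat.card (⊤ : Subgroup (Equiv.Perm (Fin n))) := by
      rw [Subgroup.card_top, Nat.card_perm, Nat.card_eq_fintype_card, Fintype.card_fin]
      intro h2
      exact absurd ((hpp.dvd_factorial).1 h2) (not_le.2 h)
    have h2 := ssDim_ge_card (p := p) (k := k) (⊤ : Subgroup (Equiv.Perm (Fin n))) h1
    rw [Subgroup.card_top, Nat.card_perm, Nat.card_eq_fintype_card, Fintype.card_fin] at h2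
    exact (pPrimePart_le p _).trans h2
  · have hp0 : 0 < p := hpp.pos
    have h28 : 28 ≤ p := by
      have h1 : 30 * p ≤ (p + 1) ^ 2 := (Nat.mul_le_mul_left 30 h).trans hn
      by_contra h2
      have h3 : p ≤ 27 := by omega
      nlinarith
    have h31 : 29 ≤ p := by
      rcases Nat.lt_or_ge 28 p with h1 | h1
      · exact h1
      · have h2 : p = 28 := le_antisymm h1 h28
        rw [h2] at hpp
        exact absurd hpp (by norm_num)
    have hodd : 2 * ((p + 1) / 2) = p + 1 := by
      rcases hpp.eq_two_or_odd with h1 | h1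
      · exact absurd h1 hp
      · omega
    have h1 := main_E (k := k) (n := n) p ((p + 1) / 2) hodd.le
    have h2 := num p n ((p + 1) / 2) h31 (by rw [hodd]; exact hn) (by omega)
    have hl : 0 < ((p + 1) / 2).factorial := Nat.factorial_pos _
    have h3 : n.factorial * ((p + 1) / 2).factorial ≤
        p * ssDim k (Equiv.Perm (Fin n)) * ((p + 1) / 2).factorial := by
      have h4 : p * (n.factorial * ((p + 1) / 2).factorial) ≤
          p * (ssDim k (Equiv.Perm (Fin n)) * ((p + 1) / 2).factorial) +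
            (p - 1) * ((p + 1) / 2).factorial * n.factorial := by
        calc p * (n.factorial * ((p + 1) / 2).factorial)
            ≤ p * (ssDim k (Equiv.Perm (Fin n)) * ((p + 1) / 2).factorial +
                2 * n.choose ((p + 1) / 2) * n.factorial) := Nat.mul_le_mul_left _ h1
          _ = p * (ssDim k (Equiv.Perm (Fin n)) * ((p + 1) / 2).factorial) +
                p * (2 * n.choose ((p + 1) / 2)) * n.factorial := by ring
          _ ≤ _ := Nat.add_le_add_left (Nat.mul_le_mul_right _ h2) _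
      have h5 : p * (n.factorial * ((p + 1) / 2).factorial) =
          n.factorial * ((p + 1) / 2).factorial + (p - 1) * ((p + 1) / 2).factorial * n.factorial := by
        obtain ⟨q, hq⟩ : ∃ q, p = q + 1 := ⟨p - 1, by omega⟩
        rw [hq, Nat.add_sub_cancel]
        ring
      rw [h5] at h4
      rw [mul_assoc]
      exact Nat.le_of_add_le_add_right h4
    have h6 : n.factorial ≤ p * ssDim k (Equiv.Perm (Fin n)) := Nat.le_of_mul_le_mul_right h3 hl
    have h7 : 1 ≤ n.factorial.factorization p := by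
      have h8 : p ∣ n.factorial := (hpp.dvd_factorial).2 h
      exact (hpp.dvd_iff_one_le_factorization (Nat.factorial_ne_zero n)).1 h8
    have h9 : pPrimePart p n.factorial * p ≤ n.factorial := by
      have h10 : pPrimePart p n.factorial * p ^ n.factorial.factorization p = n.factorial :=
        Nat.div_mul_cancel (Nat.ordProj_dvd _ _)
      calc pPrimePart p n.factorial * p = pPrimePart p n.factorial * p ^ 1 := by rw [pow_one]
        _ ≤ pPrimePart p n.factorial * p ^ n.factorial.factorization p :=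
          Nat.mul_le_mul_left _ (Nat.pow_le_pow_right hp0 h7)
        _ = n.factorial := h10
    have h11 : pPrimePart p n.factorial * p ≤ ssDim k (Equiv.Perm (Fin n)) * p := by
      rw [mul_comm (ssDim k (Equiv.Perm (Fin n)))]
      exact h9.trans h6
    exact Nat.le_of_mul_le_mul_right h11 hp0
-- END will_E

end Pool.Agent.Wsn
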