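import Pool.Agent.Wsn.Defs

/-! The identity for the sum of all cycles on a set. -/

set_option autoImplicit false

namespace Pool.Agent.Wsn

open MonoidAlgebra Pool.Agent.Wil

variable {k : Type} [Field k] {n : ℕ}

-- BEGIN sm_comm
/-- PROOF. Expand both products (`Finset.sum_mul_sum`, `single_mul_single`), exchange the sums; if `Fx A g` and `Fx B h` then `g * h = h * g` (`Equiv.Perm.Disjoint.commute`: a point outside `A` is fixed by `g`, a point of `A` is outside `B`), otherwise both coefficients are `0`. -/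
theorem sm_comm (χ ψ : Equiv.Perm (Fin n) →* k) (A B : Finset (Fin n)) (h : Disjoint A B) :
    sm χ A * sm ψ B = sm ψ B * sm χ A := by
  unfold sm
  rw [Finset.sum_mul_sum, Finset.sum_mul_sum, Finset.sum_comm]
  refine Finset.sum_congr rfl fun g _ => Finset.sum_congr rfl fun f _ => ?_
  rw [single_mul_single, single_mul_single]
  by_cases hf : Fx A f
  · by_cases hg : Fx B g
    · have hd : Equiv.Perm.Disjoint f g := by
        intro x
        by_cases hx : x ∈ A
        · exact Or.inr (hg x (Finset.disjoint_left.1 h hx))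
        · exact Or.inl (hf x hx)
      rw [hd.commute.eq, mul_comm]
    · rw [if_neg hg, mul_zero, zero_mul, single_zero, single_zero]
  · rw [if_neg hf, mul_zero, zero_mul, single_zero, single_zero]
-- END sm_comm

-- BEGIN swap_comm
/-- PROOF. As `sm_comm`: for `Fx B g` the transposition of two points outside `B` commutes with `g` (`Equiv.Perm.Disjoint.commute`, or `Equiv.swap_apply_of_ne_of_ne`). -/
theorem swap_comm (ψ : Equiv.Perm (Fin n) →* k) (B : Finset (Fin n)) (a y : Fin n) (ha : a ∉ B) (hy : y ∉ B) :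
    single (Equiv.swap a y) (1 : k) * sm ψ B = sm ψ B * single (Equiv.swap a y) 1 := by
  unfold sm
  rw [Finset.mul_sum, Finset.sum_mul]
  refine Finset.sum_congr rfl fun g _ => ?_
  rw [single_mul_single, single_mul_single]
  by_cases hg : Fx B g
  · have hd : Equiv.Perm.Disjoint (Equiv.swap a y) g := by
      intro x
      by_cases hx : x ∈ B
      · refine Or.inl (Equiv.swap_apply_of_ne_of_ne ?_ ?_)
        · rintro rfl
          exact ha hx
        · rintro rfl
          exact hy hx
      · exact Or.inr (hg x hx)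
    rw [hd.commute.eq, mul_comm]
  · rw [if_neg hg, mul_zero, zero_mul, single_zero, single_zero]
-- END swap_comm

-- BEGIN sm_insert
private theorem sm_insert_fx (A : Finset (Fin n)) (y : Fin n) (hy : y ∉ A) (g : Equiv.Perm (Fin n))
    (a : Fin n) (ha : a ∈ insert y A) :
    Fx A (g * Equiv.swap a y) ↔ (a = g⁻¹ y ∧ Fx (insert y A) g) := by
  constructor
  · intro h
    have h1 : g a = y := by
      have := h y hy
      rwa [Equiv.Perm.mul_apply, Equiv.swap_apply_right] at this
    refine ⟨?_, fun x hx => ?_⟩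
    · rw [← h1]
      exact (Equiv.symm_apply_apply g a).symm
    · have hxy : x ≠ y := fun h0 => hx (h0 ▸ Finset.mem_insert_self y A)
      have hxa : x ≠ a := fun h0 => hx (h0 ▸ ha)
      have hxA : x ∉ A := fun h0 => hx (Finset.mem_insert_of_mem h0)
      have := h x hxA
      rwa [Equiv.Perm.mul_apply, Equiv.swap_apply_of_ne_of_ne hxa hxy] at this
  · rintro ⟨h1, h2⟩ x hx
    rw [Equiv.Perm.mul_apply]
    by_cases hxy : x = y
    · rw [hxy, Equiv.swap_apply_right, h1]
      exact Equiv.apply_symm_apply g y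
    · have hxi : x ∉ insert y A := by
        rw [Finset.mem_insert, not_or]
        exact ⟨hxy, hx⟩
      have hxa : x ≠ a := fun h0 => hxi (h0 ▸ ha)
      rw [Equiv.swap_apply_of_ne_of_ne hxa hxy]
      exact h2 x hxi

private theorem sm_insert_coef (χ : Equiv.Perm (Fin n) →* k) (A : Finset (Fin n)) (y : Fin n) (hy : y ∉ A)
    (g : Equiv.Perm (Fin n)) :
    ∑ a ∈ insert y A, (if Fx A (g * Equiv.swap a y) then χ g else 0) =
      if Fx (insert y A) g then χ g else 0 := by
  have h1 : ∑ a ∈ insert y A, (if Fx A (g * Equiv.swap a y) then χ g else 0) =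
      ∑ a ∈ insert y A, (if a = g⁻¹ y then (if Fx (insert y A) g then χ g else 0) else 0) := by
    refine Finset.sum_congr rfl fun a ha => ?_
    have h2 := sm_insert_fx A y hy g a ha
    by_cases h3 : a = g⁻¹ y
    · by_cases h4 : Fx (insert y A) g
      · rw [if_pos (h2.2 ⟨h3, h4⟩), if_pos h3, if_pos h4]
      · rw [if_neg (fun h5 => h4 (h2.1 h5).2), if_pos h3, if_neg h4]
    · rw [if_neg (fun h5 => h3 (h2.1 h5).1), if_neg h3]
  rw [h1, Finset.sum_ite_eq']
  by_cases h4 : Fx (insert y A) g
  · have h5 : g⁻¹ y ∈ insert y A := by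
      by_contra h6
      have h8 : g (g⁻¹ y) = y := Equiv.apply_symm_apply g y
      have h7 := h4 _ h6
      rw [h8] at h7
      exact h6 (h7 ▸ Finset.mem_insert_self y A)
    rw [if_pos h5]
  · rw [if_neg h4, ite_self]

/-- PROOF. Write the right side as `∑ a ∈ insert y A, ∑ s, single (s * swap a y) (if Fx A s then χ (s * swap a y) else 0)` (`swap y y = 1`). The map `(s, a) ↦ s * swap a y` is a bijection from the pairs with `Fx A s`, `a ∈ insert y A` to the `g` with `Fx (insert y A) g`:
the inverse is `a = g⁻¹ y`, `s = g * swap (g⁻¹ y) y`, because `s y = y` (`Finset.sum_bij'` or `Finset.sum_nbij'` after filtering, or compare coefficients). -/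
theorem sm_insert (χ : Equiv.Perm (Fin n) →* k) (A : Finset (Fin n)) (y : Fin n) (hy : y ∉ A) :
    sm χ (insert y A) = sm χ A * (1 + ∑ a ∈ A, single (Equiv.swap a y) (χ (Equiv.swap a y))) := by
  have h1 : (1 : MonoidAlgebra k (Equiv.Perm (Fin n))) +
      ∑ a ∈ A, single (Equiv.swap a y) (χ (Equiv.swap a y)) =
      ∑ a ∈ insert y A, single (Equiv.swap a y) (χ (Equiv.swap a y)) := by
    rw [Finset.sum_insert hy, Equiv.swap_self, MonoidAlgebra.one_def]
    have h0 : (Equiv.refl (Fin n) : Equiv.Perm (Fin n)) = 1 := rfl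
    rw [h0, map_one]
  rw [h1]
  have h2 : ∀ a : Fin n, sm χ A * single (Equiv.swap a y) (χ (Equiv.swap a y)) =
      ∑ g : Equiv.Perm (Fin n), single g (if Fx A (g * Equiv.swap a y) then χ g else 0) := by
    intro a
    unfold sm
    rw [Finset.sum_mul, ← Equiv.sum_comp (Equiv.mulRight (Equiv.swap a y))]
    refine Finset.sum_congr rfl fun g _ => ?_
    have h4 : single (g * Equiv.swap a y) (if Fx A (g * Equiv.swap a y) then χ (g * Equiv.swap a y) else 0) *
        single (Equiv.swap a y) (χ (Equiv.swap a y)) =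
        single g (if Fx A (g * Equiv.swap a y) then χ g else 0) := by
      rw [MonoidAlgebra.single_mul_single, mul_assoc, Equiv.swap_mul_self, mul_one]
      by_cases h3 : Fx A (g * Equiv.swap a y)
      · rw [if_pos h3, if_pos h3, ← map_mul, mul_assoc, Equiv.swap_mul_self, mul_one]
      · rw [if_neg h3, if_neg h3, zero_mul]
    exact h4
  rw [Finset.mul_sum, Finset.sum_congr rfl (fun a _ => h2 a), Finset.sum_comm]
  unfold sm
  refine Finset.sum_congr rfl fun g _ => ?_
  rw [← sm_insert_coef χ A y hy g]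
  exact map_sum (MonoidAlgebra.singleAddHom g) _ _
-- END sm_insert

-- BEGIN cy_insert
/-- For `a ∈ T`, `y ∉ T`: `g * swap a y` is a cycle on `T` iff `g` is a cycle on `insert y T` with `g a = y`. -/
theorem cy_insert_core (T : Finset (Fin n)) (y : Fin n) (hy : y ∉ T) (a : Fin n) (ha : a ∈ T)
    (g : Equiv.Perm (Fin n)) : Tc T (g * Equiv.swap a y) ↔ (Tc (insert y T) g ∧ g a = y) := by
  have hay : a ≠ y := fun h => hy (h ▸ ha)
  have cy' : (g * Equiv.swap a y) y = g a := by simp [Equiv.Perm.mul_apply]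
  have ca : (g * Equiv.swap a y) a = g y := by simp [Equiv.Perm.mul_apply]
  have cx : ∀ x, x ≠ a → x ≠ y → (g * Equiv.swap a y) x = g x := fun x h1 h2 => by
    rw [Equiv.Perm.mul_apply, Equiv.swap_apply_of_ne_of_ne h1 h2]
  generalize g * Equiv.swap a y = c at cy' ca cx
  constructor
  · rintro ⟨h1, h2⟩
    have hga : g a = y := by rw [← cy']; exact h1 y hy
    have hT : ∀ z ∈ T, c z ∈ T := by
      intro z hz
      by_contra hcz
      have h3 := h1 (c z) hcz
      have h4 := c.injective h3
      exact hcz (by rw [h4]; exact hz)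
    have hstep : ∀ z ∈ T, g.SameCycle z (c z) := by
      intro z hz
      by_cases hza : z = a
      · subst hza
        rw [ca, ← hga]
        exact Equiv.Perm.sameCycle_apply_right.2 (Equiv.Perm.sameCycle_apply_right.2
          (Equiv.Perm.SameCycle.refl g z))
      · have hzy : z ≠ y := fun h => hy (h ▸ hz)
        rw [cx z hza hzy]
        exact Equiv.Perm.sameCycle_apply_right.2 (Equiv.Perm.SameCycle.refl g z)
    have hpow : ∀ x ∈ T, ∀ i : ℕ, (c ^ i) x ∈ T ∧ g.SameCycle x ((c ^ i) x) := by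
      intro x hx i
      induction i with
      | zero => exact ⟨by simpa using hx, by simp [Equiv.Perm.SameCycle.refl]⟩
      | succ i ih =>
        have e : (c ^ (i + 1)) x = c ((c ^ i) x) := by
          rw [pow_succ', Equiv.Perm.mul_apply]
        rw [e]
        exact ⟨hT _ ih.1, ih.2.trans (hstep _ ih.1)⟩
    have hTT : ∀ x ∈ T, ∀ x' ∈ T, g.SameCycle x x' := by
      intro x hx x' hx'
      obtain ⟨i, hi⟩ := (h2 x hx x' hx').exists_nat_pow_eq
      rw [← hi]
      exact (hpow x hx i).2
    have hyy : ∀ x ∈ T, g.SameCycle x y := by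
      intro x hx
      have h3 := hTT x hx a ha
      rw [← hga]
      exact Equiv.Perm.sameCycle_apply_right.2 h3
    refine ⟨⟨?_, ?_⟩, hga⟩
    · intro x hx
      rw [Finset.mem_insert, not_or] at hx
      have hxa : x ≠ a := fun h => hx.2 (h ▸ ha)
      rw [← cx x hxa hx.1]
      exact h1 x hx.2
    · intro x hx x' hx'
      rw [Finset.mem_insert] at hx hx'
      rcases hx with rfl | hx <;> rcases hx' with rfl | hx'
      · exact Equiv.Perm.SameCycle.refl g _
      · exact (hyy x' hx').symm
      · exact hyy x hx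
      · exact hTT x hx x' hx'
  · rintro ⟨⟨h1, h2⟩, hga⟩
    have hgy : g y ≠ y := fun h => hay (g.injective (by rw [hga, h]))
    refine ⟨?_, ?_⟩
    · intro x hx
      by_cases hxy : x = y
      · subst hxy; rw [cy', hga]
      · have hxa : x ≠ a := fun h => hx (h ▸ ha)
        rw [cx x hxa hxy]
        exact h1 x (by rw [Finset.mem_insert, not_or]; exact ⟨hxy, hx⟩)
    · intro x hx x' hx'
      have hxy : x ≠ y := fun h => hy (h ▸ hx)
      have hxy' : x' ≠ y := fun h => hy (h ▸ hx')
      have key : ∀ i : ℕ, ((g ^ i) x = y ∧ c.SameCycle x a) ∨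
          ((g ^ i) x ≠ y ∧ c.SameCycle x ((g ^ i) x)) := by
        intro i
        induction i with
        | zero => right; exact ⟨by simpa using hxy, by simp [Equiv.Perm.SameCycle.refl]⟩
        | succ i ih =>
          have e : (g ^ (i + 1)) x = g ((g ^ i) x) := by
            rw [pow_succ', Equiv.Perm.mul_apply]
          rw [e]
          rcases ih with ⟨i1, i2⟩ | ⟨i1, i2⟩
          · right
            rw [i1]
            refine ⟨hgy, ?_⟩
            rw [← ca]
            exact Equiv.Perm.sameCycle_apply_right.2 i2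
          · by_cases hza : (g ^ i) x = a
            · left
              rw [hza] at i2 ⊢
              exact ⟨hga, i2⟩
            · right
              refine ⟨fun h => hza (g.injective (by rw [h, hga])), ?_⟩
              rw [← cx _ hza i1]
              exact Equiv.Perm.sameCycle_apply_right.2 i2
      have hs := h2 x (Finset.mem_insert_of_mem hx) x' (Finset.mem_insert_of_mem hx')
      obtain ⟨i, hi⟩ := hs.exists_nat_pow_eq
      rcases key i with ⟨k1, _⟩ | ⟨_, k2⟩
      · exact absurd (hi.symm.trans k1) hxy'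
      · rw [hi] at k2; exact k2

open scoped Classical in
/-- The number of the `a ∈ T` for which `g * swap a y` is a cycle on `T`. -/
theorem cy_insert_count (T : Finset (Fin n)) (hT : T.Nonempty) (y : Fin n) (hy : y ∉ T)
    (g : Equiv.Perm (Fin n)) :
    ∑ a ∈ T, (if Tc T (g * Equiv.swap a y) then (1 : k) else 0) =
      if Tc (insert y T) g then 1 else 0 := by
  by_cases hg : Tc (insert y T) g
  · rw [if_pos hg]
    have hga : g (g⁻¹ y) = y := by simp
    have hne : g⁻¹ y ≠ y := by
      intro h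
      have hgy : g y = y := by
        have h5 := hga
        rw [h] at h5
        exact h5
      obtain ⟨t, ht⟩ := hT
      obtain ⟨i, hi⟩ := (hg.2 y (Finset.mem_insert_self _ _) t
        (Finset.mem_insert_of_mem ht)).exists_nat_pow_eq
      have hfix : ∀ j : ℕ, (g ^ j) y = y := by
        intro j
        induction j with
        | zero => simp
        | succ j ih => rw [pow_succ', Equiv.Perm.mul_apply, ih, hgy]
      rw [hfix i] at hi
      exact hy (hi ▸ ht)
    have hmem : g⁻¹ y ∈ T := by
      by_contra hn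
      have h1 := hg.1 (g⁻¹ y) (by rw [Finset.mem_insert, not_or]; exact ⟨hne, hn⟩)
      rw [hga] at h1
      exact hne h1.symm
    rw [Finset.sum_eq_single_of_mem (g⁻¹ y) hmem]
    · rw [if_pos]
      exact (cy_insert_core T y hy _ hmem g).2 ⟨hg, hga⟩
    · intro b hb hbne
      rw [if_neg]
      intro h
      have h1 := ((cy_insert_core T y hy b hb g).1 h).2
      exact hbne (g.injective (by rw [h1, hga]))
  · rw [if_neg hg]
    refine Finset.sum_eq_zero fun b hb => ?_
    rw [if_neg]
    intro h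
    exact hg ((cy_insert_core T y hy b hb g).1 h).1

/-- PROOF. The map `(c, a) ↦ c * swap a y` is a bijection from the pairs with `Tc T c`, `a ∈ T` to the `g` with `Tc (insert y T) g`; the inverse is `a = g⁻¹ y` (in `T`, because `T` is not empty, so `g y ≠ y`), `c = g * swap a y`: `c y = y`, `c a = g y`, `c x = g x` for the other `x`; so the
cycle of `g` is the cycle of `c` with `y` inserted between `a` and `c a`. `SameCycle c x x' → SameCycle g x x'` for `x ∈ T`: each step of `c` is one or two steps of `g`. Conversely, by induction on `i`, for `x ∈ T`: if `(g ^ i) x ∈ T` then `SameCycle c x ((g ^ i) x)`, and if `(g ^ i) x = y` then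
`SameCycle c x a`. `Equiv.Perm.SameCycle.exists_nat_pow_eq` or similar. -/
theorem cy_insert (T : Finset (Fin n)) (hT : T.Nonempty) (y : Fin n) (hy : y ∉ T) :
    cy k (insert y T) = cy k T * ∑ a ∈ T, single (Equiv.swap a y) 1 := by
  classical
  have h1 : ∀ a ∈ T, cy k T * single (Equiv.swap a y) 1 =
      ∑ g : Equiv.Perm (Fin n), single g (if Tc T (g * Equiv.swap a y) then (1 : k) else 0) := by
    intro a _
    unfold cy
    rw [Finset.sum_mul]
    rw [← Equiv.sum_comp (Equiv.mulRight (Equiv.swap a y)) (fun g : Equiv.Perm (Fin n) =>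
      (single g (if Tc T (g * Equiv.swap a y) then (1 : k) else 0) :
        MonoidAlgebra k (Equiv.Perm (Fin n))))]
    refine Finset.sum_congr rfl fun c _ => ?_
    rw [single_mul_single, mul_one, Equiv.coe_mulRight, mul_assoc, Equiv.swap_mul_self, mul_one]
  rw [Finset.mul_sum, Finset.sum_congr rfl h1, Finset.sum_comm]
  unfold cy
  refine Finset.sum_congr rfl fun g _ => ?_
  rw [← cy_insert_count (k := k) T hT y hy g]
  exact map_sum (singleAddHom g) _ _
-- END cy_insert

-- BEGIN al_insert
private theorem al_insert_term (T B : Finset (Fin n)) (y : Fin n) (hy : y ∉ T) (hB : B ⊆ T) :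
    sm (1 : Equiv.Perm (Fin n) →* k) (insert y (T \ B)) * sm (sgn k n) B -
      sm (1 : Equiv.Perm (Fin n) →* k) (T \ B) * sm (sgn k n) (insert y B) =
    sm (1 : Equiv.Perm (Fin n) →* k) (T \ B) * sm (sgn k n) B *
      ∑ a ∈ T, single (Equiv.swap a y) (1 : k) := by
  have hyB : y ∉ B := fun h => hy (hB h)
  have hyT : y ∉ T \ B := fun h => hy (Finset.mem_sdiff.1 h).1
  rw [sm_insert _ _ _ hyT, sm_insert _ _ _ hyB]
  have e1 : (∑ a ∈ T \ B, single (Equiv.swap a y) ((1 : Equiv.Perm (Fin n) →* k) (Equiv.swap a y))) *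
      sm (sgn k n) B = sm (sgn k n) B * ∑ a ∈ T \ B, single (Equiv.swap a y) (1 : k) := by
    rw [Finset.sum_mul, Finset.mul_sum]
    refine Finset.sum_congr rfl fun a ha => ?_
    rw [MonoidHom.one_apply]
    exact swap_comm _ _ _ _ (Finset.mem_sdiff.1 ha).2 hyB
  have e2 : ∑ b ∈ B, single (Equiv.swap b y) (sgn k n (Equiv.swap b y)) =
      - ∑ b ∈ B, single (Equiv.swap b y) (1 : k) := by
    rw [← Finset.sum_neg_distrib]
    refine Finset.sum_congr rfl fun b hb => ?_
    have hby : b ≠ y := fun h => hyB (h ▸ hb)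
    rw [sgn_apply, Equiv.Perm.sign_swap hby]
    rw [show (((-1 : ℤˣ) : ℤ) : k) = -1 by simp]
    exact MonoidAlgebra.single_neg _ _
  have e3 : ∑ a ∈ T, single (Equiv.swap a y) (1 : k) =
      ∑ a ∈ T \ B, single (Equiv.swap a y) (1 : k) + ∑ b ∈ B, single (Equiv.swap b y) (1 : k) :=
    (Finset.sum_sdiff hB).symm
  rw [e2, e3, mul_assoc, add_mul, one_mul, e1]
  noncomm_ring

/-- PROOF. The subsets `B` of `(insert y T).erase x₀` are the `B` and the `insert y B` with `B ⊆ T.erase x₀` (`Finset.sum_powerset_insert`). For `B ⊆ T.erase x₀`: `insert y T \ B = insert y (T \ B)`, `insert y T \ insert y B = T \ B`; by `sm_insert` (for the character `1`) and `swap_comm`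
`sm 1 (insert y (T \ B)) * sm sgn B = sm 1 (T \ B) * sm sgn B * (1 + ∑ a ∈ T \ B, single (swap a y) 1)`, by `sm_insert` (for `sgn`, `sgn (swap b y) = -1`, `b ≠ y`) `sm 1 (T \ B) * sm sgn (insert y B) = sm 1 (T \ B) * sm sgn B * (1 - ∑ b ∈ B, single (swap b y) 1)`, and the difference is
`sm 1 (T \ B) * sm sgn B * ∑ a ∈ T, single (swap a y) 1`. -/
theorem al_insert (x₀ : Fin n) (T : Finset (Fin n)) (hx : x₀ ∈ T) (y : Fin n) (hy : y ∉ T) :
    al k x₀ (insert y T) = al k x₀ T * ∑ a ∈ T, single (Equiv.swap a y) 1 := by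
  have hyx : y ≠ x₀ := fun h => hy (h ▸ hx)
  have hyE : y ∉ T.erase x₀ := fun h => hy (Finset.mem_of_mem_erase h)
  unfold al
  rw [Finset.erase_insert_of_ne hyx, Finset.sum_powerset_insert hyE, ← Finset.sum_add_distrib,
    Finset.sum_mul]
  refine Finset.sum_congr rfl fun B hB => ?_
  have hBT : B ⊆ T := (Finset.mem_powerset.1 hB).trans (Finset.erase_subset _ _)
  have hyB : y ∉ B := fun h => hy (hBT h)
  rw [Finset.card_insert_of_notMem hyB, pow_succ, Finset.insert_sdiff_of_notMem _ hyB,
    Finset.insert_sdiff_insert, Finset.sdiff_insert_of_notMem hy, smul_mul_assoc,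
    ← al_insert_term T B y hy hBT, smul_sub, mul_neg_one, neg_smul, sub_eq_add_neg]
-- END al_insert

-- BEGIN cyc_id
theorem cyc_id_fx {x₀ : Fin n} {g : Equiv.Perm (Fin n)} : Fx {x₀} g ↔ g = 1 := by
  constructor
  · intro h
    have h0 : g x₀ = x₀ := by
      by_contra hne
      have h1 : g (g x₀) = g x₀ := h (g x₀) (by rwa [Finset.mem_singleton])
      exact hne (g.injective h1)
    refine Equiv.ext fun x => ?_
    by_cases hx : x = x₀
    · rw [hx, h0]; rfl
    · exact h x (by rwa [Finset.mem_singleton])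
  · intro h x _
    rw [h]; rfl

theorem cyc_id_fx0 {g : Equiv.Perm (Fin n)} : Fx ∅ g ↔ g = 1 := by
  constructor
  · intro h
    exact Equiv.ext fun x => h x (Finset.notMem_empty x)
  · intro h x _
    rw [h]; rfl

theorem cyc_id_tc {x₀ : Fin n} {g : Equiv.Perm (Fin n)} : Tc {x₀} g ↔ g = 1 := by
  constructor
  · intro h
    exact cyc_id_fx.1 h.1
  · intro h
    refine ⟨cyc_id_fx.2 h, fun x hx y hy => ?_⟩
    rw [Finset.mem_singleton.1 hx, Finset.mem_singleton.1 hy]

theorem cyc_id_one (f : Equiv.Perm (Fin n) → Prop) [DecidablePred f] (hf : ∀ g, f g ↔ g = 1)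
    (χ : Equiv.Perm (Fin n) → k) (hχ : χ 1 = 1) :
    ∑ g : Equiv.Perm (Fin n), single g (if f g then χ g else 0) = (1 : MonoidAlgebra k (Equiv.Perm (Fin n))) := by
  rw [Finset.sum_eq_single 1]
  · rw [if_pos ((hf 1).2 rfl), hχ]
    rfl
  · intro g _ hg
    rw [if_neg (fun h => hg ((hf g).1 h))]
    simp
  · intro h
    exact absurd (Finset.mem_univ _) h

/-- PROOF. For all `S` with `x₀ ∉ S` by `Finset.induction_on S`: `cy k (insert x₀ S) = al k x₀ (insert x₀ S)`; `cy_insert`, `al_insert`. For `S = ∅` both sides are `1 = single 1 1`: `Tc {x₀} g ↔ g = 1`, `Fx {x₀} g ↔ g = 1` (a permutation which fixes all points but one is the identity), `Fx ∅ g ↔ g = 1`. -/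
theorem cyc_id (x₀ : Fin n) (T : Finset (Fin n)) (hx : x₀ ∈ T) : cy k T = al k x₀ T := by
  classical
  have key : ∀ S : Finset (Fin n), x₀ ∉ S → cy k (insert x₀ S) = al k x₀ (insert x₀ S) := by
    intro S
    induction S using Finset.induction_on with
    | empty =>
      intro _
      have h1 : cy k ({x₀} : Finset (Fin n)) = 1 := by
        unfold cy
        exact cyc_id_one (fun g => Tc {x₀} g) (fun g => cyc_id_tc) (fun _ => 1) rfl
      have h2 : sm (1 : Equiv.Perm (Fin n) →* k) ({x₀} : Finset (Fin n)) = 1 := by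
        unfold sm
        exact cyc_id_one (fun g => Fx {x₀} g) (fun g => cyc_id_fx) (fun g => (1 : Equiv.Perm (Fin n) →* k) g) rfl
      have h3 : sm (sgn k n) (∅ : Finset (Fin n)) = 1 := by
        unfold sm
        exact cyc_id_one (fun g => Fx ∅ g) (fun g => cyc_id_fx0) (fun g => sgn k n g) (map_one _)
      rw [insert_empty_eq, h1]
      unfold al
      rw [Finset.erase_singleton, Finset.powerset_empty, Finset.sum_singleton, Finset.sdiff_empty, h2, h3,
        Finset.card_empty, pow_zero, one_smul, mul_one]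
    | insert y S hy ih =>
      intro hx'
      rw [Finset.mem_insert, not_or] at hx'
      have hyS : y ∉ insert x₀ S := by
        rw [Finset.mem_insert, not_or]
        exact ⟨fun h => hx'.1 h.symm, hy⟩
      rw [Finset.insert_comm, cy_insert _ ⟨x₀, Finset.mem_insert_self _ _⟩ y hyS,
        al_insert x₀ _ (Finset.mem_insert_self _ _) y hyS, ih hx'.2]
  have h := key (T.erase x₀) (Finset.notMem_erase _ _)
  rwa [Finset.insert_erase hx] at h
-- END cyc_id

-- BEGIN sm_sub
/-- PROOF. `Finset.induction_on` over `A \ A'` (or induction on the cardinality) with `sm_insert`. -/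
theorem sm_sub (χ : Equiv.Perm (Fin n) →* k) (A' A : Finset (Fin n)) (h : A' ⊆ A) :
    ∃ c : MonoidAlgebra k (Equiv.Perm (Fin n)), sm χ A = sm χ A' * c := by
  have h1 : ∀ s : Finset (Fin n), ∃ c : MonoidAlgebra k (Equiv.Perm (Fin n)),
      sm χ (A' ∪ s) = sm χ A' * c := by
    intro s
    induction s using Finset.induction_on with
    | empty =>
      refine ⟨1, ?_⟩
      rw [Finset.union_empty, mul_one]
    | insert y s _ ih =>
      obtain ⟨c, hc⟩ := ih
      rw [Finset.union_insert]
      by_cases hy : y ∈ A' ∪ s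
      · rw [Finset.insert_eq_of_mem hy]
        exact ⟨c, hc⟩
      · rw [sm_insert χ (A' ∪ s) y hy, hc, mul_assoc]
        exact ⟨_, rfl⟩
  obtain ⟨c, hc⟩ := h1 A
  rw [Finset.union_eq_right.2 h] at hc
  exact ⟨c, hc⟩
-- END sm_sub

-- BEGIN cy_mem
/-- PROOF. `cyc_id` for `x₀ ∈ T`. For `B ⊆ T.erase x₀`: `B.card ≤ T.card - 1`, so `l ≤ (T \ B).card` or `l ≤ B.card`. In the first case `sm 1 (T \ B) = sm 1 A' * c` for a subset `A'` with `l` elements (`Finset.exists_subset_card_eq`, `sm_sub`), in the second case use `sm_comm` and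
`sm sgn B = sm sgn A' * c`; `sm_mem`, `UU_mul`, `Submodule.sum_mem`, `Submodule.smul_mem`. -/
theorem cy_mem (l : ℕ) (T : Finset (Fin n)) (hT : T.Nonempty) (h : 2 * l ≤ T.card + 1)
    (x : MonoidAlgebra k (Equiv.Perm (Fin n))) : cy k T * x ∈ UU k n l := by
  obtain ⟨x₀, hx⟩ := hT
  rw [cyc_id x₀ T hx, al, Finset.sum_mul]
  refine Submodule.sum_mem _ fun B hB => ?_
  rw [Finset.mem_powerset] at hB
  have hBT : B ⊆ T := hB.trans (Finset.erase_subset _ _)
  have hc : (T \ B).card + B.card = T.card := Finset.card_sdiff_add_card_eq_card hBT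
  rw [smul_mul_assoc]
  refine Submodule.smul_mem _ _ ?_
  rcases le_or_gt l (T \ B).card with h1 | h1
  · obtain ⟨A', hA', hl⟩ := Finset.exists_subset_card_eq h1
    obtain ⟨c, hc'⟩ := sm_sub (1 : Equiv.Perm (Fin n) →* k) A' (T \ B) hA'
    rw [hc', mul_assoc, mul_assoc]
    exact sm_mem 1 (Or.inl rfl) A' hl _
  · have h2 : l ≤ B.card := by omega
    obtain ⟨A', hA', hl⟩ := Finset.exists_subset_card_eq h2
    obtain ⟨c, hc'⟩ := sm_sub (sgn k n) A' B hA'
    rw [sm_comm 1 (sgn k n) (T \ B) B Finset.sdiff_disjoint, hc', mul_assoc, mul_assoc]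
    exact sm_mem (sgn k n) (Or.inr rfl) A' hl _
-- END cy_mem

-- BEGIN orb_in
private theorem orb_in_pow (T : Finset (Fin n)) (c h : Equiv.Perm (Fin n)) (hc : Tc T c)
    (hh : ∀ x ∈ T, h x = x) (x : Fin n) (hx : x ∈ T) :
    ∀ i : ℕ, ((c * h) ^ i) x ∈ T ∧ ((c * h) ^ i) x = (c ^ i) x := by
  have hcT : ∀ z ∈ T, c z ∈ T := by
    intro z hz
    by_contra hcz
    have h1 : c (c z) = c z := hc.1 _ hcz
    exact hcz (by rw [c.injective h1]; exact hz)
  intro i
  induction i with
  | zero => exact ⟨hx, rfl⟩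
  | succ i ih =>
    have e1 : ((c * h) ^ (i + 1)) x = c (h (((c * h) ^ i) x)) := by
      rw [pow_succ']; rfl
    have e2 : (c ^ (i + 1)) x = c ((c ^ i) x) := by
      rw [pow_succ']; rfl
    rw [hh _ ih.1] at e1
    rw [e1, e2]
    exact ⟨hcT _ ih.1, by rw [ih.2]⟩

/-- PROOF. `T` is mapped to itself by `c * h` (`h` fixes the points of `T`; `c` maps `T` to `T`, because it fixes all points outside `T`), and on `T` the powers of `c * h` are the powers of `c`: `((c * h) ^ i) x = (c ^ i) x` for `x ∈ T`, `i : ℤ` or `ℕ`. -/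
theorem orb_in (T : Finset (Fin n)) (c h : Equiv.Perm (Fin n)) (hc : Tc T c) (hh : ∀ x ∈ T, h x = x) (x : Fin n)
    (hx : x ∈ T) : orb (c * h) x = T := by
  ext y
  rw [mem_orb]
  constructor
  · intro hs
    obtain ⟨i, _, hi⟩ := hs.exists_pow_eq'
    rw [← hi]
    exact (orb_in_pow T c h hc hh x hx i).1
  · intro hy
    obtain ⟨i, _, hi⟩ := (hc.2 x hx y hy).exists_pow_eq'
    refine ⟨(i : ℤ), ?_⟩
    rw [zpow_natCast, (orb_in_pow T c h hc hh x hx i).2, hi]
-- END orb_in

-- BEGIN orb_out
/-- PROOF. `h` maps the complement of `T` to itself and `c` fixes it, so `((c * h) ^ i) y = (h ^ i) y` for `y ∉ T`. -/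
theorem orb_out (T : Finset (Fin n)) (c h : Equiv.Perm (Fin n)) (hc : Fx T c) (hh : ∀ x ∈ T, h x = x) (y : Fin n)
    (hy : y ∉ T) : orb (c * h) y = orb h y := by
  have key : ∀ i : ℕ, (h ^ i) y ∉ T ∧ ((c * h) ^ i) y = (h ^ i) y := by
    intro i
    induction i with
    | zero => exact ⟨hy, rfl⟩
    | succ i ih =>
      have e1 : ((c * h) ^ (i + 1)) y = c (h (((c * h) ^ i) y)) := by
        rw [pow_succ']; rfl
      have e2 : (h ^ (i + 1)) y = h ((h ^ i) y) := by
        rw [pow_succ']; rfl
      have e3 : h ((h ^ i) y) ∉ T := by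
        intro hT
        have h1 : h (h ((h ^ i) y)) = h ((h ^ i) y) := hh _ hT
        exact ih.1 (by rw [← h.injective h1]; exact hT)
      rw [ih.2, hc _ e3] at e1
      rw [e1, e2]
      exact ⟨e3, rfl⟩
  ext z
  rw [mem_orb, mem_orb]
  constructor
  · intro hs
    obtain ⟨i, _, hi⟩ := hs.exists_pow_eq'
    refine ⟨(i : ℤ), ?_⟩
    rw [zpow_natCast, ← (key i).2, hi]
  · intro hs
    obtain ⟨i, _, hi⟩ := hs.exists_pow_eq'
    refine ⟨(i : ℤ), ?_⟩
    rw [zpow_natCast, (key i).2, hi]
-- END orb_out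

-- BEGIN conj_ch
private theorem conj_ch_mem (T : Finset (Fin n)) (c : Equiv.Perm (Fin n)) (hc : Fx T c) (x : Fin n)
    (hx : x ∈ T) : c x ∈ T := by
  by_contra h
  have h1 := hc _ h
  exact h (by rw [c.injective h1]; exact hx)

private theorem conj_ch_one (T : Finset (Fin n)) (c : Equiv.Perm (Fin n)) (hc : Fx T c)
    (hT : T.card ≤ 1) : c = 1 := by
  ext x
  by_cases hx : x ∈ T
  · rw [Finset.card_le_one.1 hT _ (conj_ch_mem T c hc x hx) _ hx]
    rfl
  · rw [hc x hx]
    rfl

private theorem conj_ch_supp (T : Finset (Fin n)) (c : Equiv.Perm (Fin n)) (hc : Tc T c)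
    (hT : 1 < T.card) : c.IsCycle ∧ c.support = T := by
  have hs : ∀ x, c x ≠ x ↔ x ∈ T := by
    intro x
    constructor
    · intro h
      by_contra h'
      exact h (hc.1 x h')
    · intro hx h
      obtain ⟨y, hy, hyx⟩ := Finset.exists_mem_ne hT x
      exact hyx ((hc.2 x hx y hy).eq_of_left h).symm
  refine ⟨?_, ?_⟩
  · obtain ⟨x, hx⟩ := Finset.card_pos.1 (lt_trans one_pos hT)
    exact ⟨x, (hs x).2 hx, fun y hy => hc.2 x hx y ((hs y).1 hy)⟩
  · ext x
    rw [Equiv.Perm.mem_support]
    exact hs x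

/-- PROOF. If `T.card ≤ 1` then `c = 1 = c'`. Otherwise `c`, `c'` are cycles with support `T` (`Equiv.Perm.IsCycle`), disjoint from `h`, so `c * h` and `c' * h` have the same cycle type (`Equiv.Perm.Disjoint.cycleType_mul`, `Equiv.Perm.IsCycle.cycleType`), `Equiv.Perm.isConj_iff_cycleType_eq`. -/
theorem conj_ch (T : Finset (Fin n)) (c c' h : Equiv.Perm (Fin n)) (hc : Tc T c) (hc' : Tc T c')
    (hh : ∀ x ∈ T, h x = x) : IsConj (c * h) (c' * h) := by
  rcases Nat.lt_or_ge 1 T.card with hT | hT
  · obtain ⟨h1, h2⟩ := conj_ch_supp T c hc hT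
    obtain ⟨h1', h2'⟩ := conj_ch_supp T c' hc' hT
    have d : ∀ e : Equiv.Perm (Fin n), Fx T e → Equiv.Perm.Disjoint e h := by
      intro e he x
      by_cases hx : x ∈ T
      · exact Or.inr (hh x hx)
      · exact Or.inl (he x hx)
    rw [Equiv.Perm.isConj_iff_cycleType_eq, (d c hc.1).cycleType_mul, (d c' hc'.1).cycleType_mul,
      h1.cycleType, h1'.cycleType, h2, h2']
  · rw [conj_ch_one T c hc.1 hT, conj_ch_one T c' hc'.1 hT]
-- END conj_ch

-- BEGIN decomp
/-- PROOF. `c = g.cycleOf x`, `h = c⁻¹ * g`: `Equiv.Perm.cycleOf_apply`, `Equiv.Perm.SameCycle.cycleOf_apply`, `Equiv.Perm.cycleOf_apply_of_not_sameCycle`, `Equiv.Perm.cycleOf_pow_apply_self` or similar; for `z ∈ T`: `c z = g z`, so `h z = z`. -/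
theorem decomp (g : Equiv.Perm (Fin n)) (x : Fin n) :
    Tc (orb g x) (g.cycleOf x) ∧ ∀ z ∈ orb g x, ((g.cycleOf x)⁻¹ * g) z = z := by
  have hpow : ∀ i : ℕ, ((g.cycleOf x) ^ i) x = (g ^ i) x := fun i =>
    Equiv.Perm.cycleOf_pow_apply_self g x i
  refine ⟨⟨fun z hz => ?_, fun y hy z hz => ?_⟩, fun z hz => ?_⟩
  · rw [mem_orb] at hz
    exact Equiv.Perm.cycleOf_apply_of_not_sameCycle hz
  · rw [mem_orb] at hy hz
    have key : ∀ w, g.SameCycle x w → (g.cycleOf x).SameCycle x w := by
      intro w hw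
      obtain ⟨i, _, hi⟩ := hw.exists_pow_eq'
      refine ⟨(i : ℤ), ?_⟩
      rw [zpow_natCast, hpow, hi]
    exact (key y hy).symm.trans (key z hz)
  · rw [mem_orb] at hz
    rw [Equiv.Perm.mul_apply, Equiv.Perm.inv_eq_iff_eq, hz.cycleOf_apply]
-- END decomp

-- BEGIN long_mem
private theorem long_mem_cyc (T : Finset (Fin n)) (c h : Equiv.Perm (Fin n)) (hc : Tc T c)
    (hh : ∀ x ∈ T, h x = x) (x : Fin n) (hx : x ∈ T) : (c * h).cycleOf x = c := by
  have ho := orb_in T c h hc hh x hx
  refine Equiv.ext fun z => ?_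
  by_cases hz : z ∈ T
  · have h1 : (c * h).SameCycle x z := by
      rw [← mem_orb, ho]
      exact hz
    rw [h1.cycleOf_apply, Equiv.Perm.mul_apply, hh z hz]
  · have h1 : ¬ (c * h).SameCycle x z := by
      rw [← mem_orb, ho]
      exact hz
    rw [Equiv.Perm.cycleOf_apply_of_not_sameCycle h1]
    exact (hc.1 z hz).symm

open scoped Classical in
private theorem long_mem_sum (T : Finset (Fin n)) (h : Equiv.Perm (Fin n)) (t : k) :
    ∑ c : Equiv.Perm (Fin n), single (c * h) (if Tc T c then t else 0) =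
      t • (cy k T * single h (1 : k)) := by
  unfold cy
  rw [Finset.sum_mul, Finset.smul_sum]
  refine Finset.sum_congr rfl fun c _ => ?_
  rw [MonoidAlgebra.single_mul_single, MonoidAlgebra.smul_single]
  by_cases hc : Tc T c
  · rw [if_pos hc, if_pos hc, mul_one, smul_eq_mul, mul_one]
  · rw [if_neg hc, if_neg hc, zero_mul, smul_zero]

/-- PROOF. For `g` with long cycles let `x g` be the least `x` with `q ≤ (orb g x).card`, and `F g = (orb g (x g), (g.cycleOf (x g))⁻¹ * g)` (define `x g` for all `g`, for example by `if h : ∃ x, .. then Finset.min' .. else ..`; for `g` without a long cycle the term is `0`). Split the sum over the fibres of `F`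
(`Finset.sum_fiberwise`). Let `g₀` be in the fibre of `(T, h)` and long: `g₀ = c₀ * h`, `Tc T c₀`, `h` fixes the points of `T` (`decomp`), `q ≤ T.card`. The long elements of the fibre are exactly the `c * h` with `Tc T c`: `orb_in`, `orb_out` show that `c * h` has the same long points as `g₀` (the points of `T`, and the
`y ∉ T` with `q ≤ (orb h y).card`), so the least one is the same point of `T` and `F (c * h) = (T, h)` (`cycleOf (c * h) x = c` for `x ∈ T`: from `c * h = cycleOf * h'` with `decomp`, both act on `T` as `c * h` and fix the other points). `θ (c * h) = θ g₀` by `conj_ch`. So the sum over the fibre is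
`θ g₀ • (cy k T * single h 1)`, in `UU` by `cy_mem`. -/
theorem long_mem (l q : ℕ) (hl : 2 * l ≤ q + 1) (hq : 1 ≤ q) (θ : Equiv.Perm (Fin n) → k)
    (hθ : ∀ g h, IsConj g h → θ g = θ h) :
    ∑ g : Equiv.Perm (Fin n), single g (if ∃ x, q ≤ (orb g x).card then θ g else 0) ∈ UU k n l := by
  classical
  by_cases hall : ∃ g : Equiv.Perm (Fin n), ∃ x, q ≤ (orb g x).card
  · obtain ⟨g1, x1, -⟩ := hall
    have hex : ∀ g : Equiv.Perm (Fin n), ∃ x : Fin n, (∃ y, q ≤ (orb g y).card) →
        q ≤ (orb g x).card ∧ ∀ y, q ≤ (orb g y).card → x ≤ y := by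
      intro g
      by_cases hg : ∃ y, q ≤ (orb g y).card
      · obtain ⟨y, hy⟩ := hg
        obtain ⟨x, hx, hmin⟩ := Finset.exists_min_image
          (Finset.univ.filter fun y : Fin n => q ≤ (orb g y).card) id
          ⟨y, Finset.mem_filter.2 ⟨Finset.mem_univ _, hy⟩⟩
        exact ⟨x, fun _ => ⟨(Finset.mem_filter.1 hx).2, fun z hz =>
          hmin z (Finset.mem_filter.2 ⟨Finset.mem_univ _, hz⟩)⟩⟩
      · exact ⟨x1, fun h => absurd h hg⟩
    choose X hX using hex
    obtain ⟨F, hF⟩ : ∃ F : Equiv.Perm (Fin n) → Finset (Fin n) × Equiv.Perm (Fin n),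
        ∀ g, F g = (orb g (X g), (g.cycleOf (X g))⁻¹ * g) := ⟨_, fun _ => rfl⟩
    rw [← Finset.sum_fiberwise Finset.univ F]
    refine Submodule.sum_mem _ fun p _ => ?_
    obtain ⟨T, h⟩ := p
    rw [Finset.sum_filter]
    by_cases hfib : ∃ g, F g = (T, h) ∧ ∃ x, q ≤ (orb g x).card
    · obtain ⟨g₀, hg₀, hlong⟩ := hfib
      obtain ⟨hx1, hx2⟩ := hX g₀ hlong
      rw [hF, Prod.mk.injEq] at hg₀
      obtain ⟨hT, hh⟩ := hg₀
      obtain ⟨hd1, hd2⟩ := decomp g₀ (X g₀)
      rw [hT] at hd1 hd2 hx1
      rw [hh] at hd2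
      have hg0 : g₀ = g₀.cycleOf (X g₀) * h := by rw [← hh]; group
      have hxT : X g₀ ∈ T := by
        rw [← hT, mem_orb]
      have hTq : T.Nonempty := ⟨_, hxT⟩
      have horb : ∀ c, Tc T c → orb (c * h) = orb g₀ := by
        intro c hc
        funext y
        rw [hg0]
        by_cases hy : y ∈ T
        · rw [orb_in T c h hc hd2 y hy, orb_in T _ h hd1 hd2 y hy]
        · rw [orb_out T c h hc.1 hd2 y hy, orb_out T _ h hd1.1 hd2 y hy]
      have key : ∀ c : Equiv.Perm (Fin n),
          (F (c * h) = (T, h) ∧ ∃ x, q ≤ (orb (c * h) x).card) ↔ Tc T c := by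
        intro c
        constructor
        · rintro ⟨h1, -⟩
          rw [hF, Prod.mk.injEq] at h1
          obtain ⟨h1, h2⟩ := h1
          have h3 := (decomp (c * h) (X (c * h))).1
          rw [h1] at h3
          have h4 : (c * h).cycleOf (X (c * h)) = c := by
            have h5 : (c * h).cycleOf (X (c * h)) * (((c * h).cycleOf (X (c * h)))⁻¹ * (c * h)) =
                (c * h).cycleOf (X (c * h)) * h := by rw [h2]
            rw [mul_inv_cancel_left] at h5
            exact (mul_right_cancel h5).symm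
          rw [h4] at h3
          exact h3
        · intro hc
          have h1 := horb c hc
          have h2 : ∃ x, q ≤ (orb (c * h) x).card := ⟨X g₀, by rw [h1, hT]; exact hx1⟩
          have h3 : X (c * h) = X g₀ := by
            obtain ⟨h4, h5⟩ := hX (c * h) h2
            refine le_antisymm (h5 _ ?_) (hx2 _ ?_)
            · rw [h1, hT]
              exact hx1
            · rw [← h1]
              exact h4
          refine ⟨?_, h2⟩
          rw [hF, h3, h1, hT, long_mem_cyc T c h hc hd2 _ hxT, inv_mul_cancel_left]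
      have hsum : (∑ g : Equiv.Perm (Fin n), if F g = (T, h) then
          single g (if ∃ x, q ≤ (orb g x).card then θ g else 0) else
            (0 : MonoidAlgebra k (Equiv.Perm (Fin n)))) =
          θ g₀ • (cy k T * single h (1 : k)) := by
        rw [← long_mem_sum, ← Equiv.sum_comp (Equiv.mulRight h)]
        refine Finset.sum_congr rfl fun c _ => ?_
        rw [Equiv.coe_mulRight]
        by_cases hc : Tc T c
        · obtain ⟨h1, h2⟩ := (key c).2 hc
          rw [if_pos h1, if_pos h2, if_pos hc]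
          congr 1
          rw [hg0]
          exact hθ _ _ (conj_ch T _ _ h hc hd1 hd2)
        · rw [if_neg hc]
          by_cases h1 : F (c * h) = (T, h)
          · rw [if_pos h1, if_neg fun h2 => hc ((key c).1 ⟨h1, h2⟩)]
          · rw [if_neg h1, MonoidAlgebra.single_zero]
      rw [hsum]
      exact Submodule.smul_mem _ _ (cy_mem l T hTq (by omega) _)
    · rw [Finset.sum_eq_zero]
      · exact Submodule.zero_mem _
      · intro g _
        by_cases h1 : F g = (T, h)
        · rw [if_pos h1, if_neg fun h2 => hfib ⟨g, h1, h2⟩, MonoidAlgebra.single_zero]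
        · rw [if_neg h1]
  · rw [Finset.sum_eq_zero]
    · exact Submodule.zero_mem _
    · intro g _
      rw [if_neg fun h => hall ⟨g, h⟩, MonoidAlgebra.single_zero]
-- END long_mem

end Pool.Agent.Wsn
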