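import Pool.Agent.Wil.Mod
import Pool.Agent.Wil.Char

/-!
Willems' inequality for the symmetric groups of degree `n` with `30 n ≤ p ^ 2` (MP_6335a4_al): definitions.
-/

set_option autoImplicit false

namespace Pool.Agent.Wsn

open MonoidAlgebra Pool.Agent.Wil

/-- `g` fixes all points outside `A`. -/
def Fx {n : ℕ} (A : Finset (Fin n)) (g : Equiv.Perm (Fin n)) : Prop := ∀ x, x ∉ A → g x = x

instance Fx.dec {n : ℕ} (A : Finset (Fin n)) : DecidablePred (Fx A) := fun g => by
  unfold Fx
  infer_instance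

/-- The sign character with values in `k`. -/
def sgn (k : Type) [Field k] (n : ℕ) : Equiv.Perm (Fin n) →* k :=
  ((Int.castRingHom k : ℤ →+* k) : ℤ →* k).comp ((Units.coeHom ℤ).comp Equiv.Perm.sign)

theorem sgn_apply (k : Type) [Field k] {n : ℕ} (g : Equiv.Perm (Fin n)) :
    sgn k n g = ((Equiv.Perm.sign g : ℤ) : k) := rfl

/-- The sum of the permutations which fix all points outside `A`, weighted by the linear character `χ`. -/
noncomputable def sm {k : Type} [Field k] {n : ℕ} (χ : Equiv.Perm (Fin n) →* k) (A : Finset (Fin n)) :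
    MonoidAlgebra k (Equiv.Perm (Fin n)) :=
  ∑ g : Equiv.Perm (Fin n), single g (if Fx A g then χ g else 0)

/-- `g` is a cycle on `T` (it fixes all points outside `T`, and all points of `T` are in one cycle of `g`). -/
def Tc {n : ℕ} (T : Finset (Fin n)) (g : Equiv.Perm (Fin n)) : Prop :=
  Fx T g ∧ ∀ x ∈ T, ∀ y ∈ T, g.SameCycle x y

open scoped Classical in
/-- The sum of all cycles on `T`. -/
noncomputable def cy (k : Type) [Field k] {n : ℕ} (T : Finset (Fin n)) : MonoidAlgebra k (Equiv.Perm (Fin n)) :=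
  ∑ g : Equiv.Perm (Fin n), single g (if Tc T g then 1 else 0)

/-- The alternating sum of the products of symmetrisers and antisymmetrisers. -/
noncomputable def al (k : Type) [Field k] {n : ℕ} (x₀ : Fin n) (T : Finset (Fin n)) :
    MonoidAlgebra k (Equiv.Perm (Fin n)) :=
  ∑ B ∈ (T.erase x₀).powerset, (-1 : k) ^ B.card • (sm (1 : Equiv.Perm (Fin n) →* k) (T \ B) * sm (sgn k n) B)

/-- The right ideal generated by the symmetrisers and antisymmetrisers of the subsets with `l` elements. -/
noncomputable def UU (k : Type) [Field k] (n l : ℕ) : Submodule k (MonoidAlgebra k (Equiv.Perm (Fin n))) :=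
  Submodule.span k {u | ∃ (χ : Equiv.Perm (Fin n) →* k) (A : Finset (Fin n)) (x : MonoidAlgebra k (Equiv.Perm (Fin n))),
    (χ = 1 ∨ χ = sgn k n) ∧ A.card = l ∧ u = sm χ A * x}

theorem sm_mem {k : Type} [Field k] {n l : ℕ} (χ : Equiv.Perm (Fin n) →* k) (hχ : χ = 1 ∨ χ = sgn k n)
    (A : Finset (Fin n)) (hA : A.card = l) (x : MonoidAlgebra k (Equiv.Perm (Fin n))) : sm χ A * x ∈ UU k n l :=
  Submodule.subset_span ⟨χ, A, x, hχ, hA, rfl⟩

theorem UU_mul {k : Type} [Field k] {n l : ℕ} {u : MonoidAlgebra k (Equiv.Perm (Fin n))} (hu : u ∈ UU k n l)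
    (x : MonoidAlgebra k (Equiv.Perm (Fin n))) : u * x ∈ UU k n l := by
  unfold UU at hu
  induction hu using Submodule.span_induction with
  | mem u h =>
    obtain ⟨χ, A, y, hχ, hA, rfl⟩ := h
    rw [mul_assoc]
    exact sm_mem χ hχ A hA _
  | zero => rw [zero_mul]; exact Submodule.zero_mem _
  | add a b _ _ ha hb => rw [add_mul]; exact Submodule.add_mem _ ha hb
  | smul c a _ ha => rw [smul_mul_assoc]; exact Submodule.smul_mem _ _ ha

open scoped Classical in
/-- The cycle of `g` which contains `x`. -/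
noncomputable def orb {n : ℕ} (g : Equiv.Perm (Fin n)) (x : Fin n) : Finset (Fin n) :=
  Finset.univ.filter fun y => g.SameCycle x y

theorem mem_orb {n : ℕ} (g : Equiv.Perm (Fin n)) (x y : Fin n) : y ∈ orb g x ↔ g.SameCycle x y := by
  classical
  simp [orb]

end Pool.Agent.Wsn
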